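import Mathlib
import Pool.Agent.Lib.MP_edb5be_nt.H13.Basic

/-!
# Counting by words: the branching evaluation
-/

set_option autoImplicit false

namespace Pool.Agent.Lib.MP_edb5be_nt.H26T

open Function H13

variable {S : Type*}

/-- value of an optional state -/
def oe (f : S → ℕ) : Option S → ℕ
  | none => 0
  | some s => f s

theorem oe_none (f : S → ℕ) : oe f none = 0 := rfl

theorem oe_some (f : S → ℕ) (s : S) : oe f (some s) = f s := rfl

/-- the value of the run of `z` started in the state `s` -/
def val (step : Bool → S → Option S) (f : ℤ → S → ℕ) : ℕ → ℤ → S → ℕ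
  | 0, z, s => f z s
  | n + 1, z, s => oe (fun s' => val step f n (T z) s') (step (decide (z % 2 ≠ 0)) s)

/-- the total over all words -/
def tot (step : Bool → S → Option S) (g : S → ℕ) : ℕ → S → ℕ
  | 0, s => g s
  | n + 1, s => oe (tot step g n) (step false s) + oe (tot step g n) (step true s)

/-- pairwise incongruent modulo `2^n` -/
def Sep (n : ℕ) (B : Finset ℤ) : Prop := ∀ z ∈ B, ∀ z' ∈ B, (2 : ℤ) ^ n ∣ z - z' → z = z'

theorem Sep.mono {n : ℕ} {B C : Finset ℤ} (h : Sep n B) (hC : C ⊆ B) : Sep n C :=
  fun z hz z' hz' hd => h z (hC hz) z' (hC hz') hd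

theorem sep_image {n : ℕ} {B : Finset ℤ} (h : Sep (n + 1) B) (b : ℤ)
    (hb : ∀ z ∈ B, z % 2 = b) : Set.InjOn T B ∧ Sep n (B.image T) := by
  have key : ∀ z ∈ B, ∀ z' ∈ B, (2 : ℤ) ^ n ∣ T z - T z' → z = z' := by
    intro z hz z' hz' hd
    have e1 := hb z hz
    have e2 := hb z' hz'
    refine h z hz z' hz' ?_
    by_cases hz0 : z % 2 = 0
    · have hz0' : z' % 2 = 0 := by omega
      have h1 := two_mul_T_even hz0
      have h2 := two_mul_T_even hz0'
      obtain ⟨c, hc⟩ := hd
      refine ⟨c, ?_⟩
      rw [pow_succ]
      linear_combination (-1) * h1 + h2 + 2 * hc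
    · have hz0' : z' % 2 ≠ 0 := by omega
      have h1 := two_mul_T_odd hz0
      have h2 := two_mul_T_odd hz0'
      obtain ⟨c, hc⟩ := hd
      have h3 : (2 : ℤ) ^ (n + 1) ∣ 3 * (z - z') := by
        refine ⟨c, ?_⟩
        rw [pow_succ]
        linear_combination (-1) * h1 + h2 + 2 * hc
      have h4 : IsCoprime ((2 : ℤ) ^ (n + 1)) 3 := by
        apply IsCoprime.pow_left
        norm_num
      exact h4.dvd_of_dvd_mul_left h3
  refine ⟨fun z hz z' hz' hzz => key z hz z' hz' (by rw [hzz]; simp), ?_⟩
  intro w hw w' hw' hd
  obtain ⟨z, hz, rfl⟩ := Finset.mem_image.1 hw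
  obtain ⟨z', hz', rfl⟩ := Finset.mem_image.1 hw'
  rw [key z hz z' hz' hd]

/-- The counting lemma. -/
theorem sum_val_le (step : Bool → S → Option S) (f : ℤ → S → ℕ) (g : S → ℕ) (n0 : ℕ)
    (hf : ∀ s, ∀ B : Finset ℤ, Sep n0 B → ∑ z ∈ B, f z s ≤ g s) :
    ∀ (n : ℕ) (s : S) (B : Finset ℤ), Sep (n + n0) B →
      ∑ z ∈ B, val step f n z s ≤ tot step g n s := by
  intro n
  induction n with
  | zero =>
    intro s B hB
    rw [Nat.zero_add] at hB
    exact hf s B hB
  | succ n ih =>
    intro s B hB
    have hB' : Sep ((n + n0) + 1) B := by
      rw [show n + n0 + 1 = n + 1 + n0 by omega]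
      exact hB
    rw [← Finset.sum_filter_add_sum_filter_not B (fun z => z % 2 = 0)]
    refine Nat.add_le_add ?_ ?_
    · have hsub := Finset.filter_subset (fun z : ℤ => z % 2 = 0) B
      obtain ⟨hinj, hsep⟩ := sep_image (hB'.mono hsub) 0
        (fun z hz => (Finset.mem_filter.1 hz).2)
      have h1 : ∀ z ∈ B.filter (fun z => z % 2 = 0), val step f (n + 1) z s =
          oe (fun s' => val step f n (T z) s') (step false s) := by
        intro z hz
        have hz2 := (Finset.mem_filter.1 hz).2
        rw [val, decide_eq_false (by simpa using hz2)]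
      rw [Finset.sum_congr rfl h1]
      cases hs : step false s with
      | none => simp [oe]
      | some s' =>
        simp only [oe]
        have := ih s' _ hsep
        rwa [Finset.sum_image hinj] at this
    · have hsub := Finset.filter_subset (fun z : ℤ => ¬ z % 2 = 0) B
      obtain ⟨hinj, hsep⟩ := sep_image (hB'.mono hsub) 1
        (fun z hz => by
          have := (Finset.mem_filter.1 hz).2
          omega)
      have h1 : ∀ z ∈ B.filter (fun z => ¬ z % 2 = 0), val step f (n + 1) z s =
          oe (fun s' => val step f n (T z) s') (step true s) := by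
        intro z hz
        have hz2 := (Finset.mem_filter.1 hz).2
        rw [val, decide_eq_true (by simpa using hz2)]
      rw [Finset.sum_congr rfl h1]
      cases hs : step true s with
      | none => simp [oe]
      | some s' =>
        simp only [oe]
        have := ih s' _ hsep
        rwa [Finset.sum_image hinj] at this

theorem tot_mono (step : Bool → S → Option S) (P : S → Prop)
    (hP : ∀ b s s', P s → step b s = some s' → P s') {g g' : S → ℕ} (h : ∀ s, P s → g s ≤ g' s) :
    ∀ (n : ℕ) (s : S), P s → tot step g n s ≤ tot step g' n s := by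
  intro n
  induction n with
  | zero => intro s hs; exact h s hs
  | succ n ih =>
    intro s hs
    rw [tot, tot]
    refine Nat.add_le_add ?_ ?_
    · cases h0 : step false s with
      | none => simp [oe]
      | some s' => exact ih s' (hP _ _ _ hs h0)
    · cases h0 : step true s with
      | none => simp [oe]
      | some s' => exact ih s' (hP _ _ _ hs h0)

theorem tot_add (step : Bool → S → Option S) (g g' : S → ℕ) :
    ∀ (n : ℕ) (s : S), tot step (fun s => g s + g' s) n s = tot step g n s + tot step g' n s := by
  intro n
  induction n with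
  | zero => intro s; rfl
  | succ n ih =>
    intro s
    rw [tot, tot, tot]
    cases step false s with
    | none =>
      cases step true s with
      | none => simp [oe]
      | some s' => simp [ih, oe]
    | some s' =>
      cases step true s with
      | none => simp [ih, oe]
      | some s'' => simp only [ih, oe]; omega

theorem tot_mul (step : Bool → S → Option S) (c : ℕ) (g : S → ℕ) :
    ∀ (n : ℕ) (s : S), tot step (fun s => c * g s) n s = c * tot step g n s := by
  intro n
  induction n with
  | zero => intro s; rfl
  | succ n ih =>
    intro s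
    rw [tot, tot]
    cases step false s with
    | none =>
      cases step true s with
      | none => simp [oe]
      | some s' => simp [ih, oe]
    | some s' =>
      cases step true s with
      | none => simp [ih, oe]
      | some s'' => simp only [ih, oe]; ring

theorem tot_zero (step : Bool → S → Option S) :
    ∀ (n : ℕ) (s : S), tot step (fun _ => 0) n s = 0 := by
  intro n
  induction n with
  | zero => intro s; rfl
  | succ n ih =>
    intro s
    rw [tot]
    cases step false s with
    | none =>
      cases step true s with
      | none => simp [oe]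
      | some s' => simp [ih, oe]
    | some s' =>
      cases step true s with
      | none => simp [ih, oe]
      | some s'' => simp [ih, oe]

theorem tot_sum (step : Bool → S → Option S) {ι : Type*} (F : Finset ι) (g : ι → S → ℕ)
    (n : ℕ) (s : S) : tot step (fun s => ∑ i ∈ F, g i s) n s = ∑ i ∈ F, tot step (g i) n s := by
  classical
  induction F using Finset.induction_on with
  | empty => simp [tot_zero]
  | insert i F hi ih =>
    simp only [Finset.sum_insert hi]
    rw [tot_add, ih]

theorem tot_tot (step : Bool → S → Option S) (g : S → ℕ) (m : ℕ) :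
    ∀ (n : ℕ) (s : S), tot step (fun s => tot step g m s) n s = tot step g (n + m) s := by
  intro n
  induction n with
  | zero => intro s; rw [Nat.zero_add]; rfl
  | succ n ih =>
    intro s
    rw [show n + 1 + m = (n + m) + 1 by omega, tot, tot]
    congr 1
    · cases step false s with
      | none => rfl
      | some s' => exact ih s'
    · cases step true s with
      | none => rfl
      | some s' => exact ih s'

/-- A supersolution bounds the sum over all lengths: if `2 V s ≥ 2 c + V (s0) + V (s1)`, then
`c ∑_{i < n} F_i(s) / 2^i ≤ V s`. -/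
theorem sum_tot_le (step : Bool → S → Option S) (c : ℕ) (V : S → ℕ) (P : S → Prop)
    (hP : ∀ b s s', P s → step b s = some s' → P s')
    (hV : ∀ s, P s → 2 * c + oe V (step false s) + oe V (step true s) ≤ 2 * V s) :
    ∀ (n : ℕ) (s : S), P s →
      c * ∑ i ∈ Finset.range n, 2 ^ (n - i) * tot step (fun _ => 1) i s ≤ 2 ^ n * V s := by
  intro n
  induction n with
  | zero => intro s _; simp
  | succ n ih =>
    intro s hs
    have h1 := hV s hs
    have h2 : ∑ i ∈ Finset.range (n + 1), 2 ^ (n + 1 - i) * tot step (fun _ => 1) i s
        = 2 ^ (n + 1) +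
      (oe (fun s' => ∑ i ∈ Finset.range n, 2 ^ (n - i) * tot step (fun _ => 1) i s') (step false s) +
      oe (fun s' => ∑ i ∈ Finset.range n, 2 ^ (n - i) * tot step (fun _ => 1) i s')
        (step true s)) := by
      rw [Finset.sum_range_succ', add_comm]
      congr 1
      · simp [tot]
      · cases h0 : step false s with
        | none =>
          cases h1 : step true s with
          | none => simp [tot, h0, h1, oe]
          | some s' => simp [tot, h0, h1, oe]
        | some s' =>
          cases h1 : step true s with
          | none => simp [tot, h0, h1, oe]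
          | some s'' =>
            simp only [tot, h0, h1, oe, ← Finset.sum_add_distrib]
            refine Finset.sum_congr rfl fun i _ => ?_
            rw [show n + 1 - (i + 1) = n - i by omega]
            ring
    rw [h2]
    have h3 : 2 ^ (n + 1) * V s = 2 ^ n * (2 * V s) := by ring
    rw [h3]
    refine le_trans ?_ (Nat.mul_le_mul_left _ h1)
    have h4 : ∀ b, c * oe (fun s' => ∑ i ∈ Finset.range n, 2 ^ (n - i) *
        tot step (fun _ => 1) i s') (step b s) ≤ 2 ^ n * oe V (step b s) := by
      intro b
      cases h0 : step b s with
      | none => simp [oe]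
      | some s' => exact ih s' (hP _ _ _ hs h0)
    calc _ = 2 ^ n * (2 * c) + (c * oe (fun s' => ∑ i ∈ Finset.range n, 2 ^ (n - i) *
        tot step (fun _ => 1) i s') (step false s)
        + c * oe (fun s' => ∑ i ∈ Finset.range n, 2 ^ (n - i) *
        tot step (fun _ => 1) i s') (step true s)) := by ring
      _ ≤ 2 ^ n * (2 * c) + (2 ^ n * oe V (step false s) + 2 ^ n * oe V (step true s)) :=
          Nat.add_le_add_left (Nat.add_le_add (h4 false) (h4 true)) _
      _ = _ := by ring

/-- a supersolution dominates its averages -/
theorem tot_super (step : Bool → S → Option S) (V : S → ℕ) (P : S → Prop)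
    (hP : ∀ b s s', P s → step b s = some s' → P s')
    (hV : ∀ s, P s → oe V (step false s) + oe V (step true s) ≤ 2 * V s) :
    ∀ (n : ℕ) (s : S), P s → tot step V n s ≤ 2 ^ n * V s := by
  intro n
  induction n with
  | zero => intro s _; simp [tot]
  | succ n ih =>
    intro s hs
    have h1 := hV s hs
    rw [tot]
    have h4 : ∀ b, oe (tot step V n) (step b s) ≤ 2 ^ n * oe V (step b s) := by
      intro b
      cases h0 : step b s with
      | none => simp [oe]
      | some s' => exact ih s' (hP _ _ _ hs h0)
    calc _ ≤ 2 ^ n * oe V (step false s) + 2 ^ n * oe V (step true s) :=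
          Nat.add_le_add (h4 false) (h4 true)
      _ = 2 ^ n * (oe V (step false s) + oe V (step true s)) := by ring
      _ ≤ 2 ^ n * (2 * V s) := Nat.mul_le_mul_left _ h1
      _ = _ := by ring

end Pool.Agent.Lib.MP_edb5be_nt.H26T
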