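import Mathlib

/-!
# Packed vectors: slots of 80 bits
-/

set_option autoImplicit false

namespace Pool.Agent.Lib.MP_edb5be_nt.H26T

/-- packed vector -/
def pk (f : ℕ → ℕ) : ℕ → ℕ
  | 0 => 0
  | n + 1 => pk f n + 2 ^ (80 * n) * f n

theorem pk_congr {f g : ℕ → ℕ} (n : ℕ) (h : ∀ j < n, f j = g j) : pk f n = pk g n := by
  induction n with
  | zero => rfl
  | succ n ih =>
    rw [pk, pk, ih fun j hj => h j (by omega), h n (by omega)]

theorem pk_add (f g : ℕ → ℕ) (n : ℕ) : pk f n + pk g n = pk (fun j => f j + g j) n := by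
  induction n with
  | zero => rfl
  | succ n ih =>
    rw [pk, pk, pk, ← ih]
    ring

theorem pk_mul (c : ℕ) (f : ℕ → ℕ) (n : ℕ) : pk f n * c = pk (fun j => f j * c) n := by
  induction n with
  | zero => simp [pk]
  | succ n ih =>
    rw [pk, pk, ← ih]
    ring

theorem pk_len (f : ℕ → ℕ) (m n : ℕ) :
    pk f (m + n) = pk f m + 2 ^ (80 * m) * pk (fun j => f (m + j)) n := by
  induction n with
  | zero => simp [pk]
  | succ n ih =>
    rw [← Nat.add_assoc, pk, ih, pk]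
    rw [show 80 * (m + n) = 80 * m + 80 * n by ring, pow_add]
    ring

theorem pk_lt {f : ℕ → ℕ} (n : ℕ) (h : ∀ j < n, f j < 2 ^ 80) : pk f n < 2 ^ (80 * n) := by
  induction n with
  | zero => simp [pk]
  | succ n ih =>
    have h1 := ih fun j hj => h j (by omega)
    have h2 := h n (by omega)
    rw [pk, show 80 * (n + 1) = 80 * n + 80 by ring, pow_add]
    calc pk f n + 2 ^ (80 * n) * f n < 2 ^ (80 * n) + 2 ^ (80 * n) * f n := by omega
      _ = 2 ^ (80 * n) * (f n + 1) := by ring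
      _ ≤ _ := Nat.mul_le_mul_left _ (by omega)

theorem pk_shr {f : ℕ → ℕ} (m n : ℕ) (h : ∀ j < m, f j < 2 ^ 80) :
    Nat.shiftRight (pk f (m + n)) (80 * m) = pk (fun j => f (m + j)) n := by
  have h1 := pk_lt m h
  show pk f (m + n) >>> (80 * m) = _
  rw [Nat.shiftRight_eq_div_pow, pk_len, Nat.add_mul_div_left _ _ (by positivity),
    Nat.div_eq_of_lt h1, Nat.zero_add]

theorem pk_mod {f : ℕ → ℕ} (m n : ℕ) (h : ∀ j < m, f j < 2 ^ 80) :
    Nat.mod (pk f (m + n)) (2 ^ (80 * m)) = pk f m := by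
  have h1 := pk_lt m h
  show pk f (m + n) % _ = _
  rw [pk_len, Nat.add_mul_mod_self_left, Nat.mod_eq_of_lt h1]

theorem pk_zero (n : ℕ) : pk (fun _ => 0) n = 0 := by
  induction n with
  | zero => rfl
  | succ n ih => rw [pk, ih]; simp

theorem pk_shl (f : ℕ → ℕ) (m n : ℕ) :
    Nat.shiftLeft (pk f n) (80 * m) = pk (fun j => if j < m then 0 else f (j - m)) (m + n) := by
  show pk f n <<< (80 * m) = _
  rw [Nat.shiftLeft_eq, pk_len]
  rw [pk_congr (f := fun j => if j < m then 0 else f (j - m)) (g := fun _ => 0) m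
    (fun j hj => by simp [hj]), pk_zero, Nat.zero_add]
  rw [pk_congr (f := fun j => if m + j < m then 0 else f (m + j - m)) (g := f) n
    (fun j _ => by simp)]
  ring

/-- a slot -/
def slot (P j : ℕ) : ℕ := Nat.mod (Nat.shiftRight P (Nat.mul 80 j)) 1208925819614629174706176

theorem slot_pk {f : ℕ → ℕ} {n : ℕ} (h : ∀ j < n, f j < 2 ^ 80) {j : ℕ} (hj : j < n) :
    slot (pk f n) j = f j := by
  obtain ⟨k, rfl⟩ : ∃ k, n = j + (k + 1) := ⟨n - j - 1, by omega⟩
  rw [slot]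
  rw [show Nat.mul 80 j = 80 * j from rfl, pk_shr j (k + 1) fun i hi => h i (by omega)]
  have h1 := pk_mod (f := fun i => f (j + i)) 1 k (fun i hi => h _ (by omega))
  rw [Nat.add_comm 1 k] at h1
  rw [show 1208925819614629174706176 = 2 ^ (80 * 1) by norm_num, h1, pk, pk]
  simp

/-- a slice -/
def slc (P a l : ℕ) : ℕ := Nat.mod (Nat.shiftRight P (Nat.mul 80 a)) (Nat.pow 2 (Nat.mul 80 l))

theorem slc_pk {f : ℕ → ℕ} {n : ℕ} (h : ∀ j < n, f j < 2 ^ 80) {a l : ℕ} (hl : a + l ≤ n) :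
    slc (pk f n) a l = pk (fun j => f (a + j)) l := by
  obtain ⟨k, rfl⟩ : ∃ k, n = a + (l + k) := ⟨n - a - l, by omega⟩
  rw [slc]
  rw [show Nat.mul 80 a = 80 * a from rfl, pk_shr a (l + k) fun i hi => h i (by omega)]
  exact pk_mod l k fun i hi => h _ (by omega)

/-- divide and conquer packing -/
def pkb (f : ℕ → ℕ) : ℕ → ℕ → ℕ := fun d =>
  Nat.rec (motive := fun _ => ℕ → ℕ) (fun lo => f lo)
    (fun d ih lo => Nat.add (ih lo) (Nat.shiftLeft (ih (Nat.add lo (Nat.pow 2 d)))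
      (Nat.mul 80 (Nat.pow 2 d)))) d

theorem pkb_eq (f : ℕ → ℕ) : ∀ d lo, pkb f d lo = pk (fun j => f (lo + j)) (2 ^ d) := by
  intro d
  induction d with
  | zero =>
    intro lo
    show f lo = _
    simp [pk]
  | succ d ih =>
    intro lo
    have h1 : pkb f (d + 1) lo = pkb f d lo +
        (pkb f d (lo + 2 ^ d)) <<< (80 * 2 ^ d) := rfl
    rw [h1, ih, ih, Nat.shiftLeft_eq, pow_succ, mul_two, pk_len]
    simp only [Nat.add_assoc]
    ring

end Pool.Agent.Lib.MP_edb5be_nt.H26T
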