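import Mathlib
import Pool.Agent.Lib.MP_edb5be_nt.H26T.Data

/-!
# The functions of the evaluation
-/

set_option autoImplicit false

namespace Pool.Agent.Lib.MP_edb5be_nt.H26T

/-- class after an even step -/
def aE (a : ℕ) : ℕ := Nat.mod (Nat.mul 14 a) 27
/-- class after an odd step -/
def aO (a : ℕ) : ℕ := Nat.mod (Nat.mul 14 (Nat.succ (Nat.mul 3 a))) 27
/-- the grid, scaled by `10^9` -/
def hh (j : ℕ) : ℕ := Nat.mul (Nat.mod (Nat.shiftRight HS (Nat.mul 40 (Nat.mod j 41))) 1099511627776)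
  (Nat.pow 2 (Nat.div j 41))
/-- index of the threshold -/
def kk (a : ℕ) : ℕ := Nat.mod (Nat.shiftRight KK (Nat.mul 8 a)) 256
/-- threshold, scaled by `10^9` -/
def KF (a : ℕ) : ℕ := Nat.mod (Nat.shiftRight KT (Nat.mul 40 a)) 1099511627776
/-- shift of an odd step -/
def sO (j : ℕ) : ℕ := bif Nat.ble 437 j then 24 else Nat.mod (Nat.shiftRight ST (Nat.mul 8 j)) 256
/-- octave of a value -/
def qq (u : ℕ) : ℕ := Nat.sub 24 (Nat.mod (Nat.shiftRight (Nat.land (Nat.sub Q1 (Nat.mul u Q2)) Q3) 63)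
  18446744073709551615)
/-- index of a value of the octave `q` -/
def idx1 (u q : ℕ) : ℕ := Nat.sub (Nat.add (Nat.mul 41 q) 41) (Nat.mod (Nat.shiftRight (Nat.land
  (Nat.sub R1 (Nat.mul (Nat.shiftRight (Nat.sub (Nat.add u (Nat.pow 2 q)) 1) q) R2)) R3) 39)
  1099511627775)
/-- index of a value, checked -/
def idx2 (x j : ℕ) : ℕ := bif Nat.ble x (Nat.add 1000000000 (hh j)) then j else x
/-- index of a value -/
def idx (x : ℕ) : ℕ := idx2 x (idx1 (Nat.sub x 1000000000) (qq (Nat.sub x 1000000000)))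
/-- supersolution -/
def VF (a j : ℕ) : ℕ := bif Nat.ble j 437 then
    Nat.mod (Nat.shiftRight (List.getD VT a 0) (Nat.mul 24 j)) 16777216
  else Nat.add 4349242 (Nat.mul 10000 (Nat.sub j 437))

/-- minimum -/
def mn (a b : ℕ) : ℕ := bif Nat.ble a b then a else b

/-- one branch of the grid run -/
def gnode (f : ℕ → ℕ → ℕ) (a j : ℕ) : ℕ := bif Nat.ble j (kk a) then 0 else f a j

/-- the grid run with terminal weight `V` -/
noncomputable def gt (V : ℕ → ℕ → ℕ) (n : ℕ) : ℕ → ℕ → ℕ :=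
  Nat.rec (motive := fun _ => ℕ → ℕ → ℕ) V
    (fun _ ih a j => Nat.add (gnode ih (aE a) (Nat.sub j 41)) (gnode ih (aO a) (Nat.add j (sO j)))) n

/-- one branch of the first steps -/
def node (f : ℕ → ℕ → ℕ → ℕ → ℕ → ℕ) (a x p q t : ℕ) : ℕ :=
  bif Nat.ble x (KF a) then 0 else f a x p q (mn t (Nat.succ (Nat.div (Nat.mul (Nat.mul
    (Nat.sub x (KF a)) p) 1000001) (Nat.mul q 1000000))))

/-- the first steps -/
noncomputable def tr (G : ℕ → ℕ → ℕ) (n : ℕ) : ℕ → ℕ → ℕ → ℕ → ℕ → ℕ :=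
  Nat.rec (motive := fun _ => ℕ → ℕ → ℕ → ℕ → ℕ → ℕ) (fun a x _ _ t => Nat.mul t (G a (idx x)))
    (fun _ ih a x p q t => Nat.add
      (node ih (aE a) (Nat.div (Nat.add x 1000000001) 2) (Nat.mul 2 p) q t)
      (node ih (aO a) (Nat.succ (Nat.div (Nat.mul (Nat.mul 3 (Nat.add x 1000000000)) 50000001)
        100000000)) (Nat.mul 2 p) (Nat.mul 3 q) t)) n

/-- the total of a class -/
noncomputable def TT (G : ℕ → ℕ → ℕ) (n : ℕ) (a : ℕ) : ℕ :=
  tr G n a (KF a) 1 1 (Nat.add (KF a) 1000000000)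

end Pool.Agent.Lib.MP_edb5be_nt.H26T
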