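import Mathlib
import Pool.Agent.Lib.MP_edb5be_nt.H13.LamSet

/-!
# A potential inequality for the sum of reciprocals of a finite union of cycles
-/

set_option autoImplicit false

namespace Pool.Agent.Lib.MP_edb5be_nt.H26T

open Function H13

/-- the sum of the reciprocals of the first `i` iterates -/
noncomputable def rs (y : ℤ) (i : ℕ) : ℝ := ∑ l ∈ Finset.range i, 1 / |((T^[l] y : ℤ) : ℝ)|

theorem rs_zero (y : ℤ) : rs y 0 = 0 := by simp [rs]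

theorem rs_succ (y : ℤ) (i : ℕ) : rs y (i + 1) = rs y i + 1 / |((T^[i] y : ℤ) : ℝ)| := by
  rw [rs, Finset.sum_range_succ, rs]

theorem rs_T (y : ℤ) (i : ℕ) : rs (T y) i = rs y (i + 1) - 1 / |(y : ℝ)| := by
  rw [rs, rs, Finset.sum_range_succ']
  simp only [iterate_zero, id]
  rw [add_sub_cancel_right]
  rfl

/-- the terms of the potential -/
noncomputable def term (κ : ℤ → ℝ) (y : ℤ) (i : ℕ) : ℝ :=
  κ (T^[i] y) / |((T^[i] y : ℤ) : ℝ)| - rs y i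

theorem term_T (κ : ℤ → ℝ) (y : ℤ) (i : ℕ) :
    term κ (T y) i = term κ y (i + 1) + 1 / |(y : ℝ)| := by
  rw [term, term, rs_T]
  have : T^[i] (T y) = T^[i + 1] y := rfl
  rw [this]
  ring

/-- the potential -/
noncomputable def pot (κ : ℤ → ℝ) (N : ℤ → ℕ) (y : ℤ) : ℝ :=
  (Finset.range (N y + 1)).sup' ⟨0, by simp⟩ (term κ y)

theorem pot_step (κ : ℤ → ℝ) (N : ℤ → ℕ) (t : ℤ → ℝ) {y : ℤ} (hN : N y ≤ N (T y) + 1)
    (h0 : 0 ≤ t y)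
    (h : ∃ i, 1 ≤ i ∧ i ≤ N y ∧
      κ y / |(y : ℝ)| + rs y i - κ (T^[i] y) / |((T^[i] y : ℤ) : ℝ)| ≤ t y) :
    1 / |(y : ℝ)| + pot κ N y - pot κ N (T y) ≤ t y := by
  have hlow : ∀ i, i + 1 ≤ N y → term κ y (i + 1) + 1 / |(y : ℝ)| ≤ pot κ N (T y) := by
    intro i hi
    rw [← term_T]
    exact Finset.le_sup' (term κ (T y)) (by rw [Finset.mem_range]; omega)
  obtain ⟨i0, hi0, h1⟩ := Finset.exists_mem_eq_sup' (⟨0, by simp⟩ : (Finset.range (N y + 1)).Nonempty)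
    (term κ y)
  have hpot : pot κ N y = term κ y i0 := h1
  rw [Finset.mem_range] at hi0
  rcases Nat.eq_zero_or_pos i0 with rfl | hpos
  · obtain ⟨i, hi1, hi2, hi3⟩ := h
    obtain ⟨k, rfl⟩ : ∃ k, i = k + 1 := ⟨i - 1, by omega⟩
    have h2 := hlow k hi2
    rw [hpot]
    rw [term] at h2 ⊢
    rw [rs_zero]
    simp only [iterate_zero, id]
    linarith
  · obtain ⟨k, rfl⟩ : ∃ k, i0 = k + 1 := ⟨i0 - 1, by omega⟩
    have h2 := hlow k (by omega)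
    rw [hpot]
    linarith

/-- The potential inequality. -/
theorem sum_le_of_toll {A : Finset ℤ} (hA : Nice A) (κ : ℤ → ℝ) (N : ℤ → ℕ) (t : ℤ → ℝ)
    (hN : ∀ y ∈ A, N y ≤ N (T y) + 1) (h0 : ∀ y ∈ A, 0 ≤ t y)
    (h : ∀ y ∈ A, ∃ i, 1 ≤ i ∧ i ≤ N y ∧
      κ y / |(y : ℝ)| + rs y i - κ (T^[i] y) / |((T^[i] y : ℤ) : ℝ)| ≤ t y) :
    ∑ y ∈ A, 1 / |(y : ℝ)| ≤ ∑ y ∈ A, t y := by
  have h1 := hA.sum_comp (pot κ N)
  have h2 : ∑ y ∈ A, (1 / |(y : ℝ)| + pot κ N y - pot κ N (T y)) ≤ ∑ y ∈ A, t y :=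
    Finset.sum_le_sum fun y hy => pot_step κ N t (hN y hy) (h0 y hy) (h y hy)
  rw [Finset.sum_sub_distrib, Finset.sum_add_distrib] at h2
  linarith

end Pool.Agent.Lib.MP_edb5be_nt.H26T
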