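import Mathlib
import Pool.Agent.Lib.MP_edb5be_nt.H26T.Grid
import Pool.Agent.Lib.MP_edb5be_nt.H26T.Count
import Pool.Agent.Lib.MP_edb5be_nt.H26T.Pot

/-!
# Runs: the real quantities against the integer quantities
-/

set_option autoImplicit false

namespace Pool.Agent.Lib.MP_edb5be_nt.H26T

open Function H13

/-- state of the first steps -/
structure PS where
  /-- class modulo 27 -/
  a : ℕ
  /-- upper bound, scaled by `10^9` -/
  x : ℕ
  /-- power of 2 -/
  p : ℕ
  /-- power of 3 -/
  q : ℕ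
  /-- the least toll so far -/
  t : ℕ

/-- one step of the grid run -/
def step2 (b : Bool) (s : ℕ × ℕ) : Option (ℕ × ℕ) :=
  match b with
  | false => if s.2 - 41 ≤ kk (aE s.1) then none else some (aE s.1, s.2 - 41)
  | true => if s.2 + sO s.2 ≤ kk (aO s.1) then none else some (aO s.1, s.2 + sO s.2)

/-- arrival in a state -/
def nx (a x p q t : ℕ) : Option PS :=
  if x ≤ KF a then none
  else some ⟨a, x, p, q, mn t ((x - KF a) * p * 1000001 / (q * 1000000) + 1)⟩

/-- one of the first steps -/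
def step1 (b : Bool) (s : PS) : Option PS :=
  match b with
  | false => nx (aE s.a) ((s.x + 1000000001) / 2) (2 * s.p) s.q s.t
  | true => nx (aO s.a) (3 * (s.x + 1000000000) * 50000001 / 100000000 + 1) (2 * s.p) (3 * s.q) s.t

/-- class modulo 27 -/
def cl (z : ℤ) : ℕ := (z % 27).toNat

theorem cl_lt (z : ℤ) : cl z < 27 := by
  unfold cl
  omega

theorem cl_E {z : ℤ} (h : z % 2 = 0) : cl (T z) = aE (cl z) := by
  have h1 := two_mul_T_even h
  rw [aE_eq, cl, cl]
  omega

theorem cl_O {z : ℤ} (h : z % 2 ≠ 0) : cl (T z) = aO (cl z) := by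
  have h1 := two_mul_T_odd h
  rw [aO_eq, cl, cl]
  omega

/-- the threshold of the class -/
noncomputable def kap (z : ℤ) : ℝ := (KF (cl z) : ℝ) / 1000000000

theorem kap_nonneg (z : ℤ) : 0 ≤ kap z := by
  unfold kap
  positivity

/-- absolute values of the iterates -/
noncomputable def ab (y : ℤ) (i : ℕ) : ℝ := |((T^[i] y : ℤ) : ℝ)|

/-- the normalised debt -/
noncomputable def XX (y : ℤ) (i : ℕ) : ℝ := ab y i * (kap y / |(y : ℝ)| + rs y i)

/-- all iterates are large -/
def Big (y : ℤ) : Prop := ∀ i, (16777216 : ℤ) ≤ |T^[i] y|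

theorem Big.ab {y : ℤ} (h : Big y) (i : ℕ) : (16777216 : ℝ) ≤ ab y i := by
  have := h i
  rw [H26T.ab]
  exact_mod_cast this

theorem Big.abs {y : ℤ} (h : Big y) : (16777216 : ℝ) ≤ |(y : ℝ)| := by
  have := h.ab 0
  simpa [H26T.ab] using this

theorem ab_even {y : ℤ} {i : ℕ} (h : T^[i] y % 2 = 0) : ab y (i + 1) = ab y i / 2 := by
  rw [ab, ab, iterate_succ_apply']
  have e1 : (2 : ℝ) * ((T (T^[i] y) : ℤ) : ℝ) = (T^[i] y : ℤ) := by
    exact_mod_cast two_mul_T_even h
  have e2 : ((T (T^[i] y) : ℤ) : ℝ) = ((T^[i] y : ℤ) : ℝ) / 2 := by linarith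
  rw [e2, abs_div]
  norm_num

theorem ab_odd {y : ℤ} {i : ℕ} (h : T^[i] y % 2 ≠ 0) :
    ab y (i + 1) ≤ (3 * ab y i + 1) / 2 ∧ (3 * ab y i - 1) / 2 ≤ ab y (i + 1) := by
  rw [ab, ab, iterate_succ_apply']
  have e1 : (2 : ℝ) * ((T (T^[i] y) : ℤ) : ℝ) = 3 * (T^[i] y : ℤ) + 1 := by
    exact_mod_cast two_mul_T_odd h
  set z : ℝ := ((T^[i] y : ℤ) : ℝ)
  set w : ℝ := ((T (T^[i] y) : ℤ) : ℝ)
  have e2 : w = (3 * z + 1) / 2 := by linarith
  rw [e2]
  constructor
  · rw [abs_div, abs_of_pos (by norm_num : (0 : ℝ) < 2)]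
    have : |3 * z + 1| ≤ 3 * |z| + 1 := by
      refine (abs_add_le _ _).trans ?_
      rw [abs_mul]
      norm_num
    linarith
  · rw [abs_div, abs_of_pos (by norm_num : (0 : ℝ) < 2)]
    have h2 : 3 * |z| - 1 ≤ |3 * z + 1| := by
      have h3 : |3 * z| ≤ |3 * z + 1| + |(1 : ℝ)| := by
        have h4 := abs_add_le (3 * z + 1) (-1)
        rw [abs_neg, show 3 * z + 1 + -1 = 3 * z by ring] at h4
        exact h4
      rw [abs_mul] at h3
      norm_num at h3
      linarith
    linarith

theorem XX_zero {y : ℤ} (h : Big y) : XX y 0 = kap y := by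
  have := h.abs
  rw [XX, rs_zero, add_zero, ab]
  simp only [iterate_zero, id]
  field_simp

theorem XX_succ {y : ℤ} (h : Big y) (i : ℕ) :
    XX y (i + 1) = ab y (i + 1) / ab y i * (XX y i + 1) := by
  have h1 := h.ab i
  have h2 : ab y i ≠ 0 := by linarith
  rw [XX, XX, rs_succ]
  rw [show |((T^[i] y : ℤ) : ℝ)| = ab y i from rfl]
  field_simp
  ring

theorem XX_nonneg (y : ℤ) (i : ℕ) : 0 ≤ XX y i := by
  rw [XX]
  have h1 : 0 ≤ ab y i := abs_nonneg _
  have h2 := kap_nonneg y
  have h3 : 0 ≤ rs y i := Finset.sum_nonneg fun _ _ => by positivity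
  positivity

theorem XX_even {y : ℤ} (h : Big y) {i : ℕ} (hi : T^[i] y % 2 = 0) :
    XX y (i + 1) = (XX y i + 1) / 2 := by
  have h1 := h.ab i
  rw [XX_succ h, ab_even hi]
  have h2 : ab y i ≠ 0 := by linarith
  field_simp

theorem XX_odd {y : ℤ} (h : Big y) {i : ℕ} (hi : T^[i] y % 2 ≠ 0) :
    XX y (i + 1) ≤ 3 * 50000001 / 100000000 * (XX y i + 1) := by
  have h1 := h.ab i
  have h0 := XX_nonneg y i
  rw [XX_succ h]
  have h2 := (ab_odd hi).1
  have h3 : ab y (i + 1) / ab y i ≤ 3 * 50000001 / 100000000 := by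
    rw [div_le_iff₀ (by linarith)]
    linarith
  gcongr

theorem grid_sound {y : ℤ} (h : Big y) (N : ℕ)
    (hX : ∀ i, 1 ≤ i → i ≤ N → kap (T^[i] y) < XX y i) :
    ∀ n i j, i + n = N → 1000000000 * XX y i ≤ 1000000000 + (hh j : ℝ) →
      1 ≤ val step2 (fun _ _ => 1) n (T^[i] y) (cl (T^[i] y), j) := by
  intro n
  induction n with
  | zero => intro i j _ _; exact le_rfl
  | succ n ih =>
    intro i j hi hj
    have hlt := hX (i + 1) (by omega) (by omega)
    have hkey : ∀ j' : ℕ, 1000000000 * XX y (i + 1) ≤ 1000000000 + (hh j' : ℝ) →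
        ¬ j' ≤ kk (cl (T^[i + 1] y)) := by
      intro j' hj' hcon
      have h1 := hh_mono hcon
      have h2 := KF_eq _ (cl_lt (T^[i + 1] y))
      rw [kap, h2] at hlt
      have h3 : (hh j' : ℝ) ≤ hh (kk (cl (T^[i + 1] y))) := by exact_mod_cast h1
      push_cast at hlt
      linarith
    have hT : T (T^[i] y) = T^[i + 1] y := (iterate_succ_apply' T i y).symm
    by_cases hz : T^[i] y % 2 = 0
    · have hj' : 1000000000 * XX y (i + 1) ≤ 1000000000 + (hh (j - 41) : ℝ) := by
        rw [XX_even h hz]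
        have : (hh j : ℝ) ≤ 2 * hh (j - 41) := by exact_mod_cast hh_E j
        linarith
      have hc : aE (cl (T^[i] y)) = cl (T^[i + 1] y) := by rw [← hT, cl_E hz]
      have h1 := hkey _ hj'
      rw [val, decide_eq_false (by simpa using hz)]
      have hs : step2 false (cl (T^[i] y), j) = some (cl (T^[i + 1] y), j - 41) := by
        rw [step2]
        simp only
        rw [hc, if_neg h1]
      rw [hs, oe_some, hT]
      exact ih (i + 1) (j - 41) (by omega) hj'
    · have hj' : 1000000000 * XX y (i + 1) ≤ 1000000000 + (hh (j + sO j) : ℝ) := by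
        have h2 := XX_odd h hz
        have h3 : 3 * (2000000000 + (hh j : ℝ)) * 50000001 ≤
            100000000 * (1000000000 + (hh (j + sO j) : ℝ)) := by exact_mod_cast hh_O j
        linarith
      have hc : aO (cl (T^[i] y)) = cl (T^[i + 1] y) := by rw [← hT, cl_O hz]
      have h1 := hkey _ hj'
      rw [val, decide_eq_true (by simpa using hz)]
      have hs : step2 true (cl (T^[i] y), j) = some (cl (T^[i + 1] y), j + sO j) := by
        rw [step2]
        simp only
        rw [hc, if_neg h1]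
      rw [hs, oe_some, hT]
      exact ih (i + 1) (j + sO j) (by omega) hj'

/-- terminal value of the first steps -/
def fin1 (m : ℕ) (z : ℤ) (s : PS) : ℕ :=
  s.t * val step2 (fun _ _ => 1) m z (s.a, idx s.x)

theorem mn_le (a b : ℕ) : mn a b = min a b := by
  unfold mn
  rcases hb : Nat.ble a b with _ | _
  · rw [cond_false]
    have : ¬ a ≤ b := fun hle => by
      rw [Nat.ble_eq_true_of_le hle] at hb
      cases hb
    omega
  · rw [cond_true]
    have := Nat.le_of_ble_eq_true hb
    omega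

theorem prefix_sound {y : ℤ} (h : Big y) (N : ℕ) (hN : 14 ≤ N) (v : ℕ)
    (hX : ∀ i, 1 ≤ i → i ≤ N → (v : ℝ) / (1000000000 * |(y : ℝ)|) <
      (XX y i - kap (T^[i] y)) / ab y i) :
    ∀ n i (s : PS), i + n = 14 → s.a = cl (T^[i] y) → 1000000000 * XX y i ≤ (s.x : ℝ) →
      s.p = 2 ^ i → 0 < s.q → (s.q : ℝ) * |(y : ℝ)| * (1 - 1 / 50000000) ^ i ≤ s.p * ab y i →
      v < s.t → v < val step1 (fin1 (N - 14)) n (T^[i] y) s := by
  have hy := h.abs
  have hkap : ∀ i, 1 ≤ i → i ≤ N → kap (T^[i] y) < XX y i := by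
    intro i h1 h2
    have h3 := hX i h1 h2
    have h4 : (0 : ℝ) ≤ (v : ℝ) / (1000000000 * |(y : ℝ)|) := by positivity
    have h5 := h.ab i
    have h6 : 0 < (XX y i - kap (T^[i] y)) / ab y i := lt_of_le_of_lt h4 h3
    have h7 := (div_pos_iff_of_pos_right (by linarith : (0 : ℝ) < ab y i)).1 h6
    linarith
  intro n
  induction n with
  | zero =>
    intro i s hi ha hx _ _ _ ht
    have hi' : i = 14 := by omega
    subst hi'
    rw [val, fin1, ha]
    have h1 := grid_sound h N hkap (N - 14) 14 (idx s.x) (by omega) (by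
      have : (s.x : ℝ) ≤ 1000000000 + hh (idx s.x) := by exact_mod_cast idx_spec s.x
      linarith)
    calc v < s.t := ht
      _ = s.t * 1 := (mul_one _).symm
      _ ≤ _ := Nat.mul_le_mul_left _ h1
  | succ n ih =>
    intro i s hi ha hx hp hq hr ht
    have hT : T (T^[i] y) = T^[i + 1] y := (iterate_succ_apply' T i y).symm
    have hab := h.ab i
    have hab' := h.ab (i + 1)
    have key : ∀ x q : ℕ, 1000000000 * XX y (i + 1) ≤ (x : ℝ) → 0 < q →
        (q : ℝ) * |(y : ℝ)| * (1 - 1 / 50000000) ^ (i + 1) ≤ (2 * s.p : ℕ) * ab y (i + 1) →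
        ∃ t', nx (cl (T^[i + 1] y)) x (2 * s.p) q s.t =
          some ⟨cl (T^[i + 1] y), x, 2 * s.p, q, t'⟩ ∧
          v < val step1 (fin1 (N - 14)) n (T^[i + 1] y) ⟨cl (T^[i + 1] y), x, 2 * s.p, q, t'⟩ := by
      intro x q hx' hq' hr'
      have h1 := hkap (i + 1) (by omega) (by omega)
      have h2 := hX (i + 1) (by omega) (by omega)
      set K := KF (cl (T^[i + 1] y)) with hK
      have h3 : (K : ℝ) < x := by
        have : kap (T^[i + 1] y) = (K : ℝ) / 1000000000 := rfl
        rw [this] at h1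
        linarith
      have h4 : K < x := by exact_mod_cast h3
      rw [nx, if_neg (by rw [← hK]; omega), ← hK]
      refine ⟨_, rfl, ?_⟩
      refine ih (i + 1) _ (by omega) rfl hx' ?_ hq' hr' ?_
      · simp only
        rw [hp, pow_succ]
        ring
      · simp only
        rw [mn_le, lt_min_iff]
        refine ⟨ht, ?_⟩
        rw [Nat.lt_succ_iff, Nat.le_div_iff_mul_le (by positivity)]
        have h5 : (v : ℝ) * (q * 1000000) ≤ (x - K) * (2 * s.p) * 1000001 := by
          rw [lt_div_iff₀ (by linarith)] at h2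
          have h6 : kap (T^[i + 1] y) = (K : ℝ) / 1000000000 := rfl
          rw [h6] at h2
          have h7 : (v : ℝ) * ab y (i + 1) ≤ (x - K) * |(y : ℝ)| := by
            have h8 : (v : ℝ) / (1000000000 * |(y : ℝ)|) * ab y (i + 1)
                = (v : ℝ) * ab y (i + 1) / (1000000000 * |(y : ℝ)|) := by ring
            rw [h8, div_lt_iff₀ (by positivity)] at h2
            have h9 : (XX y (i + 1) - (K : ℝ) / 1000000000) * (1000000000 * |(y : ℝ)|)
                = (1000000000 * XX y (i + 1) - K) * |(y : ℝ)| := by ring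
            rw [h9] at h2
            have h10 : (1000000000 * XX y (i + 1) - K) * |(y : ℝ)| ≤ (x - K) * |(y : ℝ)| := by
              gcongr
            linarith
          have h11 : (1000000 : ℝ) / 1000001 ≤ (1 - 1 / 50000000) ^ (i + 1) := by
            calc (1000000 : ℝ) / 1000001 ≤ (1 - 1 / 50000000) ^ 14 := by norm_num
              _ ≤ _ := pow_le_pow_of_le_one (by norm_num) (by norm_num) (by omega)
          have h12 : (q : ℝ) * |(y : ℝ)| * (1000000 / 1000001) ≤ (2 * s.p : ℕ) * ab y (i + 1) := by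
            refine le_trans ?_ hr'
            gcongr
          push_cast at h12
          -- multiply
          have hv0 : (0 : ℝ) ≤ v := by positivity
          have h13 : (v : ℝ) * (q * |(y : ℝ)| * (1000000 / 1000001)) ≤
              v * (2 * s.p * ab y (i + 1)) := mul_le_mul_of_nonneg_left h12 hv0
          have h14 : (2 * s.p : ℝ) * (v * ab y (i + 1)) ≤ (2 * s.p) * ((x - K) * |(y : ℝ)|) := by
            gcongr
          have h15 : (v : ℝ) * (q * 1000000) * |(y : ℝ)| ≤
              ((x - K) * (2 * s.p) * 1000001) * |(y : ℝ)| := by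
            have e1 : (v : ℝ) * (q * |(y : ℝ)| * (1000000 / 1000001)) * 1000001
                = (v : ℝ) * (q * 1000000) * |(y : ℝ)| := by ring
            nlinarith
          exact le_of_mul_le_mul_right h15 (by linarith)
        have h6 : ((x - K : ℕ) : ℝ) = x - K := by
          rw [Nat.cast_sub h4.le]
        have h7 : ((v * (q * 1000000) : ℕ) : ℝ) ≤ (((x - K) * (2 * s.p) * 1000001 : ℕ) : ℝ) := by
          push_cast
          rw [h6]
          exact h5
        exact_mod_cast h7
    by_cases hz : T^[i] y % 2 = 0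
    · have hc : aE (cl (T^[i] y)) = cl (T^[i + 1] y) := by rw [← hT, cl_E hz]
      obtain ⟨t', h1, h2⟩ := key ((s.x + 1000000001) / 2) s.q (by
        rw [XX_even h hz]
        have h3 : s.x + 1000000000 ≤ 2 * ((s.x + 1000000001) / 2) := by omega
        have h4 : (s.x : ℝ) + 1000000000 ≤ 2 * ((s.x + 1000000001) / 2 : ℕ) := by exact_mod_cast h3
        linarith) hq (by
        rw [ab_even hz, pow_succ]
        push_cast
        have h5 : (0 : ℝ) ≤ (s.q : ℝ) * |(y : ℝ)| * (1 - 1 / 50000000) ^ i := by positivity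
        nlinarith)
      rw [val, decide_eq_false (by simpa using hz), step1]
      rw [ha, hc, h1, oe_some, hT]
      exact h2
    · have hc : aO (cl (T^[i] y)) = cl (T^[i + 1] y) := by rw [← hT, cl_O hz]
      obtain ⟨t', h1, h2⟩ := key (3 * (s.x + 1000000000) * 50000001 / 100000000 + 1) (3 * s.q) (by
        have h2 := XX_odd h hz
        have h3 : 3 * (s.x + 1000000000) * 50000001 ≤
            100000000 * (3 * (s.x + 1000000000) * 50000001 / 100000000 + 1) := by omega
        have h4 : 3 * ((s.x : ℝ) + 1000000000) * 50000001 ≤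
            100000000 * ((3 * (s.x + 1000000000) * 50000001 / 100000000 + 1 : ℕ) : ℝ) := by
          exact_mod_cast h3
        linarith) (by omega) (by
        have h2 := (ab_odd hz).2
        rw [pow_succ]
        push_cast
        have h5 : (0 : ℝ) ≤ (s.q : ℝ) * |(y : ℝ)| * (1 - 1 / 50000000) ^ i := by positivity
        have h6 : 3 * ab y i * (1 - 1 / 50000000) ≤ 2 * ab y (i + 1) := by linarith
        have h7 : (s.p : ℝ) * (3 * ab y i * (1 - 1 / 50000000)) ≤ s.p * (2 * ab y (i + 1)) := by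
          gcongr
        nlinarith)
      rw [val, decide_eq_true (by simpa using hz), step1]
      rw [ha, hc, h1, oe_some, hT]
      exact h2

/-- the value of an element: the run of `N` steps -/
def vv (N : ℕ) (y : ℤ) : ℕ :=
  val step1 (fin1 (N - 14)) 14 y ⟨cl y, KF (cl y), 1, 1, KF (cl y) + 1000000000⟩

/-- The toll of an element. -/
theorem toll_sound {y : ℤ} (h : Big y) (N : ℕ) (hN : 14 ≤ N) :
    ∃ i, 1 ≤ i ∧ i ≤ N ∧ kap y / |(y : ℝ)| + rs y i - kap (T^[i] y) / |((T^[i] y : ℤ) : ℝ)| ≤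
      (vv N y : ℝ) / (1000000000 * |(y : ℝ)|) := by
  by_contra hcon
  push Not at hcon
  have hy := h.abs
  have hX : ∀ i, 1 ≤ i → i ≤ N → (vv N y : ℝ) / (1000000000 * |(y : ℝ)|) <
      (XX y i - kap (T^[i] y)) / ab y i := by
    intro i h1 h2
    have h3 := hcon i h1 h2
    have h4 := h.ab i
    have h5 : (XX y i - kap (T^[i] y)) / ab y i =
        kap y / |(y : ℝ)| + rs y i - kap (T^[i] y) / |((T^[i] y : ℤ) : ℝ)| := by
      rw [XX, sub_div, mul_div_cancel_left₀ _ (by linarith : ab y i ≠ 0)]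
      rfl
    rw [h5]
    exact h3
  have h1 := prefix_sound h N hN (vv N y) hX 14 0
    ⟨cl y, KF (cl y), 1, 1, KF (cl y) + 1000000000⟩ (by norm_num) rfl (by
      rw [XX_zero h, kap]
      simp only
      linarith) (by norm_num) (by norm_num) (by
      simp only [pow_zero, mul_one, Nat.cast_one, one_mul, ab, iterate_zero, id]
      exact le_rfl) (by
      -- the first step
      have h2 := hX 1 le_rfl (by omega)
      have h3 := h.ab 1
      have h4 : (XX y 1 - kap (T^[1] y)) / ab y 1 ≤ (kap y + 1) / |(y : ℝ)| := by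
        have h5 : XX y 1 / ab y 1 = (kap y + 1) / |(y : ℝ)| := by
          rw [XX, mul_div_cancel_left₀ _ (by linarith : ab y 1 ≠ 0), rs_succ, rs_zero, zero_add,
            iterate_zero, id, add_div]
        rw [← h5]
        have h6 := kap_nonneg (T^[1] y)
        have h7 : (0 : ℝ) < ab y 1 := by linarith
        gcongr
        linarith
      have h5 : (vv N y : ℝ) / (1000000000 * |(y : ℝ)|) < (kap y + 1) / |(y : ℝ)| :=
        lt_of_lt_of_le h2 h4
      rw [div_lt_div_iff₀ (by positivity) (by linarith)] at h5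
      have h6 : (vv N y : ℝ) * |(y : ℝ)| < ((KF (cl y) : ℝ) + 1000000000) * |(y : ℝ)| := by
        have e : (kap y + 1) * (1000000000 * |(y : ℝ)|)
            = ((KF (cl y) : ℝ) + 1000000000) * |(y : ℝ)| := by
          rw [kap]
          ring
        rw [← e]
        exact h5
      have h7 : (vv N y : ℝ) < (KF (cl y) : ℝ) + 1000000000 :=
        lt_of_mul_lt_mul_right h6 (by linarith)
      exact_mod_cast h7)
  exact lt_irrefl _ h1

end Pool.Agent.Lib.MP_edb5be_nt.H26T
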