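import Mathlib
import Pool.Agent.Lib.MP_edb5be_nt.H26T.Run

/-!
# The sum of the tolls
-/

set_option autoImplicit false

namespace Pool.Agent.Lib.MP_edb5be_nt.H26T

open Function H13

/-- number of steps of an element -/
def NN (y : ℤ) : ℕ := Nat.log 2 (y.natAbs / 108)

theorem NN_T {y : ℤ} (hy : 216 ≤ y.natAbs) : NN y ≤ NN (T y) + 1 := by
  have h1 : y.natAbs ≤ 2 * (T y).natAbs := by
    by_cases h : y % 2 = 0
    · have := two_mul_T_even h
      omega
    · have := two_mul_T_odd h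
      omega
  rw [NN, NN]
  have h2 : y.natAbs / 108 / 2 ≤ (T y).natAbs / 108 := by omega
  have h3 := Nat.log_mono_right (b := 2) h2
  rw [Nat.log_div_base] at h3
  omega

theorem NN_spec {y : ℤ} (hy : 216 ≤ y.natAbs) :
    108 * 2 ^ NN y ≤ y.natAbs ∧ y.natAbs < 216 * 2 ^ NN y := by
  have h0 : y.natAbs / 108 ≠ 0 := by omega
  have h1 := Nat.pow_log_le_self 2 h0
  have h2 := Nat.lt_pow_succ_log_self (b := 2) (by norm_num) (y.natAbs / 108)
  rw [show Nat.log 2 (y.natAbs / 108) = NN y from rfl] at h1 h2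
  rw [Nat.succ_eq_add_one, pow_succ] at h2
  generalize 2 ^ NN y = P at *
  omega

/-- classes modulo 27 prime to 3 -/
def cls : Finset ℕ := (Finset.range 27).filter (fun a => a % 3 ≠ 0)

theorem mem_cls {a : ℕ} : a ∈ cls ↔ a < 27 ∧ a % 3 ≠ 0 := by
  simp [cls]

theorem aE_cls {a : ℕ} (h : a ∈ cls) : aE a ∈ cls := by
  rw [mem_cls] at h ⊢
  rw [aE_eq]
  omega

theorem aO_cls (a : ℕ) : aO a ∈ cls := by
  rw [mem_cls, aO_eq]
  omega

theorem step2_cls (b : Bool) (s s' : ℕ × ℕ) (hs : s.1 ∈ cls) (h : step2 b s = some s') :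
    s'.1 ∈ cls := by
  cases b with
  | false =>
    rw [step2] at h
    split_ifs at h
    rw [Option.some_inj] at h
    rw [← h]
    exact aE_cls hs
  | true =>
    rw [step2] at h
    split_ifs at h
    rw [Option.some_inj] at h
    rw [← h]
    exact aO_cls _

theorem step1_cls (b : Bool) (s s' : PS) (hs : s.a ∈ cls) (h : step1 b s = some s') :
    s'.a ∈ cls := by
  cases b with
  | false =>
    rw [step1, nx] at h
    split_ifs at h
    rw [Option.some_inj] at h
    rw [← h]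
    exact aE_cls hs
  | true =>
    rw [step1, nx] at h
    split_ifs at h
    rw [Option.some_inj] at h
    rw [← h]
    exact aO_cls _

/-- initial state of a class -/
def init (a : ℕ) : PS := ⟨a, KF a, 1, 1, KF a + 1000000000⟩

/-- the total of a class with `m` grid steps and terminal weight `g` -/
def TG (g : ℕ × ℕ → ℕ) (m a : ℕ) : ℕ :=
  tot step1 (fun s => s.t * tot step2 g m (s.a, idx s.x)) 14 (init a)

theorem sum_vv_le (N : ℕ) (hN : 14 ≤ N) (a : ℕ) (B : Finset ℤ) (hB : Sep N B)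
    (ha : ∀ y ∈ B, cl y = a) : ∑ y ∈ B, vv N y ≤ TG (fun _ => 1) (N - 14) a := by
  have h1 : ∀ y ∈ B, vv N y = val step1 (fin1 (N - 14)) 14 y (init a) := by
    intro y hy
    rw [vv, ha y hy]
    rfl
  rw [Finset.sum_congr rfl h1]
  refine sum_val_le step1 (fin1 (N - 14)) _ (N - 14) ?_ 14 (init a) B ?_
  · intro s C hC
    have h2 := sum_val_le step2 (fun _ _ => 1) (fun _ => 1) 0 ?_ (N - 14) (s.a, idx s.x) C hC
    · calc ∑ z ∈ C, fin1 (N - 14) z s
          = s.t * ∑ z ∈ C, val step2 (fun _ _ => 1) (N - 14) z (s.a, idx s.x) := by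
            rw [Finset.mul_sum]
            rfl
        _ ≤ _ := Nat.mul_le_mul_left _ h2
    · intro s D hD
      rw [Finset.sum_const, smul_eq_mul, mul_one, Finset.card_le_one]
      intro z hz z' hz'
      exact hD z hz z' hz' (by simp)
  · rw [show 14 + (N - 14) = N by omega]
    exact hB

/-- sum over all lengths -/
theorem sum_TG_le (c : ℕ) (V : ℕ × ℕ → ℕ)
    (hV : ∀ s : ℕ × ℕ, s.1 ∈ cls → 2 * c + oe V (step2 false s) +
      oe V (step2 true s) ≤ 2 * V s) (m n : ℕ) {a : ℕ} (ha : a ∈ cls) :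
    c * ∑ i ∈ Finset.range n, 2 ^ (n - i) * TG (fun _ => 1) (m + i) a ≤ 2 ^ n * TG V m a := by
  have h1 := sum_tot_le step2 c V (fun s => s.1 ∈ cls) step2_cls hV n
  have h2 : ∀ s : PS, s.a ∈ cls →
      ∑ i ∈ Finset.range n, (c * 2 ^ (n - i)) *
        (s.t * tot step2 (fun _ => 1) (m + i) (s.a, idx s.x)) ≤
      2 ^ n * (s.t * tot step2 V m (s.a, idx s.x)) := by
    intro s hs
    have h3 : ∑ i ∈ Finset.range n, (c * 2 ^ (n - i)) *
        (s.t * tot step2 (fun _ => 1) (m + i) (s.a, idx s.x))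
        = s.t * tot step2 (fun s' => ∑ i ∈ Finset.range n, (c * 2 ^ (n - i)) *
          tot step2 (fun _ => 1) i s') m (s.a, idx s.x) := by
      rw [tot_sum, Finset.mul_sum]
      refine Finset.sum_congr rfl fun i _ => ?_
      rw [tot_mul, tot_tot]
      ring
    rw [h3]
    calc _ ≤ s.t * tot step2 (fun s' => 2 ^ n * V s') m (s.a, idx s.x) := by
          refine Nat.mul_le_mul_left _ ?_
          refine tot_mono step2 (fun s => s.1 ∈ cls) step2_cls ?_ m _ hs
          intro s' hs'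
          have := h1 s' hs'
          rw [Finset.mul_sum] at this
          refine le_trans (le_of_eq ?_) this
          refine Finset.sum_congr rfl fun i _ => ?_
          ring
      _ = _ := by rw [tot_mul]; ring
  have h4 := tot_mono step1 (fun s => s.a ∈ cls) step1_cls h2 14 (init a) ha
  rw [tot_sum, tot_mul] at h4
  refine le_trans (le_of_eq ?_) h4
  rw [Finset.mul_sum]
  refine Finset.sum_congr rfl fun i _ => ?_
  rw [tot_mul, TG]
  ring

theorem nice_big {A : Finset ℤ} (hA : Nice A) {y : ℤ} (hy : y ∈ A) : Big y :=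
  fun i => hA.big _ (hA.iterate_mem i y hy)

theorem sep_block (N j : ℕ) (B : Finset ℤ)
    (hs : (∀ y ∈ B, 0 < y) ∨ (∀ y ∈ B, y < 0)) (a : ℕ) (ha : ∀ y ∈ B, cl y = a)
    (hj : ∀ y ∈ B, 27 * 2 ^ N * j ≤ y.natAbs ∧ y.natAbs < 27 * 2 ^ N * (j + 1)) : Sep N B := by
  intro y hy y' hy' hd
  have e1 := ha y hy
  have e2 := ha y' hy'
  have h27 : (27 : ℤ) ∣ y - y' := by
    rw [← e2] at e1
    unfold cl at e1
    omega
  have hcop : IsCoprime (27 : ℤ) (2 ^ N) := by
    apply IsCoprime.pow_right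
    norm_num
  have h1 : (27 : ℤ) * 2 ^ N ∣ y - y' := hcop.mul_dvd h27 hd
  refine eq_of_abs_sub_lt h1 ?_
  have a1 := hj y hy
  have a2 := hj y' hy'
  have e3 : ((27 * 2 ^ N : ℕ) : ℤ) = 27 * 2 ^ N := by push_cast; ring
  rw [← e3]
  have h3 : 27 * 2 ^ N * (j + 1) = 27 * 2 ^ N * j + 27 * 2 ^ N := by ring
  rw [h3] at a1 a2
  generalize 27 * 2 ^ N * j = P at a1 a2
  generalize 27 * 2 ^ N = Q at a1 a2 ⊢
  rw [abs_lt]
  rcases hs with hs | hs
  · have := hs y hy
    have := hs y' hy'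
    omega
  · have := hs y hy
    have := hs y' hy'
    omega

/-- The main inequality. -/
theorem sum_inv_le {A : Finset ℤ} (hA : Nice A) (N0 : ℕ) (hN0 : 14 ≤ N0)
    (hbig : ∀ y ∈ A, N0 ≤ NN y) (c : ℕ) (hc : 0 < c) (V : ℕ × ℕ → ℕ)
    (hV : ∀ s : ℕ × ℕ, s.1 ∈ cls → 2 * c + oe V (step2 false s) +
      oe V (step2 true s) ≤ 2 * V s) :
    ∑ y ∈ A, 1 / |(y : ℝ)| ≤
      319 / 420 * (∑ a ∈ cls, TG V (N0 - 14) a : ℕ) / (27000000000 * c * 2 ^ N0) := by
  classical
  have hnat : ∀ y ∈ A, 16777216 ≤ y.natAbs := by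
    intro y hy
    have h := hA.big y hy
    rw [Int.abs_eq_natAbs] at h
    omega
  -- the tolls
  have h1 : ∑ y ∈ A, 1 / |(y : ℝ)| ≤ ∑ y ∈ A, (vv (NN y) y : ℝ) / (1000000000 * |(y : ℝ)|) := by
    refine sum_le_of_toll hA kap NN _ ?_ ?_ ?_
    · intro y hy
      exact NN_T (by have := hnat y hy; omega)
    · intro y _
      positivity
    · intro y hy
      exact toll_sound (nice_big hA hy) (NN y) (hN0.trans (hbig y hy))
  refine h1.trans ?_
  -- upper bound for the number of steps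
  obtain ⟨M, hM⟩ : ∃ M : ℕ, ∀ y ∈ A, NN y < N0 + M := by
    refine ⟨∑ y ∈ A, NN y + 1, fun y hy => ?_⟩
    have := Finset.single_le_sum (f := NN) (fun _ _ => Nat.zero_le _) hy
    omega
  -- blocks
  set key : ℤ → (ℕ × ℕ) × ℕ := fun y => ((NN y - N0, y.natAbs / (27 * 2 ^ NN y)), cl y) with hkey
  set K : Finset ((ℕ × ℕ) × ℕ) := (Finset.range M ×ˢ Finset.Icc 4 7) ×ˢ cls with hK
  have hmaps : ∀ y ∈ A, key y ∈ K := by
    intro y hy
    rw [hkey, hK, Finset.mem_product, Finset.mem_product, Finset.mem_range, Finset.mem_Icc]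
    obtain ⟨e1, e2⟩ := NN_spec (y := y) (by have := hnat y hy; omega)
    have e3 := hM y hy
    have e4 := hbig y hy
    have hpos : 0 < 27 * 2 ^ NN y := by positivity
    refine ⟨⟨by simp only; omega, ?_, ?_⟩, ?_⟩
    · simp only
      rw [Nat.le_div_iff_mul_le hpos]
      omega
    · simp only
      rw [← Nat.lt_succ_iff, Nat.div_lt_iff_lt_mul hpos]
      omega
    · simp only
      rw [mem_cls]
      refine ⟨cl_lt y, ?_⟩
      have := hA.three y hy
      unfold cl
      omega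
  rw [← Finset.sum_fiberwise_of_maps_to hmaps]
  have h2 : ∀ k ∈ K, ∑ y ∈ A.filter (fun y => key y = k),
      (vv (NN y) y : ℝ) / (1000000000 * |(y : ℝ)|) ≤
      (TG (fun _ => 1) (N0 - 14 + k.1.1) k.2 : ℝ) / 2 ^ (N0 + k.1.1) *
        (1 / (27000000000 * (k.1.2 : ℝ))) := by
    rintro ⟨⟨i, j⟩, a⟩ hk
    rw [hK, Finset.mem_product, Finset.mem_product, Finset.mem_range, Finset.mem_Icc] at hk
    obtain ⟨⟨hi, hj4, hj7⟩, ha⟩ := hk
    simp only at hi hj4 hj7 ha ⊢
    set B := A.filter (fun y => key y = ((i, j), a)) with hB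
    have hB1 : ∀ y ∈ B, y ∈ A ∧ NN y = N0 + i ∧ y.natAbs / (27 * 2 ^ (N0 + i)) = j ∧ cl y = a := by
      intro y hy
      rw [hB, Finset.mem_filter, hkey] at hy
      simp only [Prod.mk.injEq] at hy
      obtain ⟨e1, ⟨e2, e3⟩, e4⟩ := hy
      have e5 := hbig y e1
      have e6 : NN y = N0 + i := by omega
      rw [e6] at e3
      exact ⟨e1, e6, e3, e4⟩
    have hpos : 0 < 27 * 2 ^ (N0 + i) := by positivity
    have hB2 : ∀ y ∈ B, 27 * 2 ^ (N0 + i) * j ≤ y.natAbs ∧
        y.natAbs < 27 * 2 ^ (N0 + i) * (j + 1) := by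
      intro y hy
      obtain ⟨-, -, e3, -⟩ := hB1 y hy
      constructor
      · have := Nat.div_mul_le_self y.natAbs (27 * 2 ^ (N0 + i))
        rw [e3] at this
        linarith
      · have := Nat.lt_mul_div_succ y.natAbs hpos
        rw [e3] at this
        exact this
    have hsep : Sep (N0 + i) B := by
      refine sep_block (N0 + i) j B ?_ a (fun y hy => (hB1 y hy).2.2.2) hB2
      rcases hA.sign with h | h
      · exact Or.inl fun y hy => h y (hB1 y hy).1
      · exact Or.inr fun y hy => h y (hB1 y hy).1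
    have h3 := sum_vv_le (N0 + i) (by omega) a B hsep (fun y hy => (hB1 y hy).2.2.2)
    rw [show N0 + i - 14 = N0 - 14 + i by omega] at h3
    have hj0 : (0 : ℝ) < j := by exact_mod_cast (by omega : 0 < j)
    calc ∑ y ∈ B, (vv (NN y) y : ℝ) / (1000000000 * |(y : ℝ)|)
        ≤ ∑ y ∈ B, (vv (N0 + i) y : ℝ) * (1 / (2 ^ (N0 + i)) * (1 / (27000000000 * (j : ℝ)))) := by
          refine Finset.sum_le_sum fun y hy => ?_
          rw [(hB1 y hy).2.1, div_eq_mul_inv]
          have e1 : ((27 * 2 ^ (N0 + i) * j : ℕ) : ℝ) ≤ |(y : ℝ)| := by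
            have e2 : |(y : ℝ)| = (y.natAbs : ℝ) := by
              rw [← Int.cast_abs, Int.abs_eq_natAbs]
              simp
            rw [e2]
            exact_mod_cast (hB2 y hy).1
          push_cast at e1
          have e3 : (1000000000 * |(y : ℝ)|)⁻¹ ≤
              1 / (2 ^ (N0 + i)) * (1 / (27000000000 * (j : ℝ))) := by
            rw [one_div_mul_one_div, ← one_div]
            apply one_div_le_one_div_of_le (by positivity)
            linarith
          gcongr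
      _ = (∑ y ∈ B, vv (N0 + i) y : ℕ) * (1 / (2 ^ (N0 + i)) * (1 / (27000000000 * (j : ℝ)))) := by
          rw [← Finset.sum_mul]
          push_cast
          rfl
      _ ≤ (TG (fun _ => 1) (N0 - 14 + i) a : ℝ) *
            (1 / (2 ^ (N0 + i)) * (1 / (27000000000 * (j : ℝ)))) := by
          have e4 : ((∑ y ∈ B, vv (N0 + i) y : ℕ) : ℝ) ≤ (TG (fun _ => 1) (N0 - 14 + i) a : ℝ) := by
            exact_mod_cast h3
          gcongr
      _ = _ := by ring
  refine (Finset.sum_le_sum h2).trans ?_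
  rw [hK, Finset.sum_product, Finset.sum_product]
  have h4 : ∑ i ∈ Finset.range M, ∑ j ∈ (Finset.Icc 4 7 : Finset ℕ), ∑ a ∈ cls,
      (TG (fun _ => 1) (N0 - 14 + i) a : ℝ) / 2 ^ (N0 + i) * (1 / (27000000000 * (j : ℝ)))
      = 319 / 420 / 27000000000 * ∑ a ∈ cls, ∑ i ∈ Finset.range M,
        (TG (fun _ => 1) (N0 - 14 + i) a : ℝ) / 2 ^ (N0 + i) := by
    rw [Finset.sum_comm (s := cls), Finset.mul_sum]
    refine Finset.sum_congr rfl fun i _ => ?_
    have e5 : ∀ j ∈ (Finset.Icc 4 7 : Finset ℕ), ∑ a ∈ cls,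
      (TG (fun _ => 1) (N0 - 14 + i) a : ℝ) / 2 ^ (N0 + i) * (1 / (27000000000 * (j : ℝ)))
      = (1 / (27000000000 * (j : ℝ))) * ∑ a ∈ cls,
        (TG (fun _ => 1) (N0 - 14 + i) a : ℝ) / 2 ^ (N0 + i) := by
      intro j _
      rw [Finset.mul_sum]
      exact Finset.sum_congr rfl fun a _ => by ring
    rw [Finset.sum_congr rfl e5, ← Finset.sum_mul]
    congr 1
    rw [show (Finset.Icc 4 7 : Finset ℕ) = ({4, 5, 6, 7} : Finset ℕ) by decide]
    rw [Finset.sum_insert (by decide), Finset.sum_insert (by decide), Finset.sum_insert (by decide),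
      Finset.sum_singleton]
    norm_num
  rw [h4]
  have h5 : ∀ a ∈ cls, ∑ i ∈ Finset.range M,
        (TG (fun _ => 1) (N0 - 14 + i) a : ℝ) / 2 ^ (N0 + i) ≤ (TG V (N0 - 14) a : ℝ) / (c * 2 ^ N0) := by
    intro a ha
    have e1 := sum_TG_le c V hV (N0 - 14) M ha
    have e2 : (c : ℝ) * ∑ i ∈ Finset.range M, 2 ^ (M - i) * (TG (fun _ => 1) (N0 - 14 + i) a : ℝ)
        ≤ 2 ^ M * (TG V (N0 - 14) a : ℝ) := by exact_mod_cast e1
    have e3 : ∑ i ∈ Finset.range M, 2 ^ (M - i) * (TG (fun _ => 1) (N0 - 14 + i) a : ℝ)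
        = 2 ^ (N0 + M) * ∑ i ∈ Finset.range M,
          (TG (fun _ => 1) (N0 - 14 + i) a : ℝ) / 2 ^ (N0 + i) := by
      rw [Finset.mul_sum]
      refine Finset.sum_congr rfl fun i hi => ?_
      rw [Finset.mem_range] at hi
      rw [show N0 + M = (N0 + i) + (M - i) by omega, pow_add]
      field_simp
    rw [e3] at e2
    have hc' : (0 : ℝ) < c := by exact_mod_cast hc
    rw [le_div_iff₀ (by positivity)]
    have e4 : (2 : ℝ) ^ M * ((∑ i ∈ Finset.range M,
        (TG (fun _ => 1) (N0 - 14 + i) a : ℝ) / 2 ^ (N0 + i)) * (c * 2 ^ N0))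
        ≤ 2 ^ M * (TG V (N0 - 14) a : ℝ) := by
      refine le_trans (le_of_eq ?_) e2
      rw [pow_add]
      ring
    exact le_of_mul_le_mul_left e4 (by positivity)
  calc 319 / 420 / 27000000000 * ∑ a ∈ cls, ∑ i ∈ Finset.range M,
        (TG (fun _ => 1) (N0 - 14 + i) a : ℝ) / 2 ^ (N0 + i)
      ≤ 319 / 420 / 27000000000 * ∑ a ∈ cls, (TG V (N0 - 14) a : ℝ) / (c * 2 ^ N0) := by
        have := Finset.sum_le_sum h5
        gcongr
    _ = _ := by
        rw [← Finset.sum_div]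
        push_cast
        ring

end Pool.Agent.Lib.MP_edb5be_nt.H26T
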