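import Mathlib
import Pool.Agent.Lib.MP_edb5be_nt.H26T.DP

/-!
# The numerical values
-/

set_option autoImplicit false

namespace Pool.Agent.Lib.MP_edb5be_nt.H26T

set_option maxRecDepth 100000 in
theorem num3 : SS 3 (it 3) cl18 ≤ 413239841078785033865 := by decide +kernel

set_option maxRecDepth 100000 in
theorem num50 : SS 50 (it 50) cl18 ≤ 6459040936721497675833842832363453 := by
  decide +kernel

end Pool.Agent.Lib.MP_edb5be_nt.H26T
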