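import Mathlib
import Pool.Agent.Lib.MP_edb5be_nt.H26T.Num
import Pool.Agent.Lib.MP_edb5be_nt.H13.SparseExplicit

/-!
# Explicit bounds for the sum of `|p log 2 - k log 3|` over unknown cycles of one sign
-/

set_option autoImplicit false

namespace Pool.Agent.Lib.MP_edb5be_nt.H26T

open Function H13

theorem NN_ge {y : ℤ} {m N : ℕ} (hy : m ≤ y.natAbs) (hm : 108 * 2 ^ N ≤ m) : N ≤ NN y := by
  rw [NN]
  refine Nat.le_log_of_pow_le (by norm_num) ?_
  rw [Nat.le_div_iff_mul_le (by norm_num)]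
  omega

theorem num_24 (X : ℕ) (h : X ≤ 413239841078785033865) :
    319 / 420 * (X : ℝ) / (27000000000 * ((85000 : ℕ) : ℝ) * 2 ^ 17) ≤ 10435 / 10000 := by
  have h3 : (X : ℝ) ≤ 413239841078785033865 := by exact_mod_cast h
  rw [div_le_iff₀ (by norm_num)]
  norm_num
  linarith

theorem num_71 (X : ℕ) (h : X ≤ 6459040936721497675833842832363453) :
    319 / 420 * (X : ℝ) / (27000000000 * ((85000 : ℕ) : ℝ) * 2 ^ 64) ≤ 1159 / 10000 := by
  have h3 : (X : ℝ) ≤ 6459040936721497675833842832363453 := by exact_mod_cast h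
  rw [div_le_iff₀ (by norm_num)]
  norm_num
  linarith

attribute [local irreducible] SS it TG

theorem tot3 : ∑ a ∈ cls, TG VS (17 - 14) a ≤ 413239841078785033865 :=
  le_trans (sum_TG 3 (by norm_num)) num3

theorem tot50 : ∑ a ∈ cls, TG VS (64 - 14) a ≤ 6459040936721497675833842832363453 :=
  le_trans (sum_TG 50 (by norm_num)) num50

theorem sum_inv_24 {A : Finset ℤ} (hA : Nice A) : ∑ y ∈ A, 1 / |(y : ℝ)| ≤ 10435 / 10000 := by
  refine (sum_inv_le hA 17 (by norm_num) (fun y hy => NN_ge (m := 16777216) (by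
    have := hA.big y hy
    rw [Int.abs_eq_natAbs] at this
    omega) (by norm_num)) 85000 (by norm_num) VS VS_super).trans ?_
  exact num_24 _ tot3

theorem sum_inv_71 {A : Finset ℤ} (hA : Nice A) (hbig : ∀ y ∈ A, (2 : ℤ) ^ 71 ≤ |y|) :
    ∑ y ∈ A, 1 / |(y : ℝ)| ≤ 1159 / 10000 := by
  refine (sum_inv_le hA 64 (by norm_num) (fun y hy => NN_ge (m := 2 ^ 71) (by
    have := hbig y hy
    rw [Int.abs_eq_natAbs] at this
    exact_mod_cast this) (by norm_num)) 85000 (by norm_num) VS VS_super).trans ?_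
  exact num_71 _ tot50

theorem abs_lam_set {A : Finset ℤ} (hA : Nice A) {B : ℝ} (hB : ∑ y ∈ A, 1 / |(y : ℝ)| ≤ B) :
    |(A.card : ℝ) * Real.log 2 - ((A.filter (fun y => y % 2 ≠ 0)).card : ℝ) * Real.log 3|
      ≤ 2501 / 10000 * B := by
  rw [lam_set_eq hA]
  calc |∑ y ∈ A.filter (fun y => y % 2 ≠ 0), Real.log (1 + 1 / (3 * (y : ℝ)))|
      ≤ ∑ y ∈ A.filter (fun y => y % 2 ≠ 0), |Real.log (1 + 1 / (3 * (y : ℝ)))| :=
        Finset.abs_sum_le_sum_abs _ _
    _ ≤ ∑ y ∈ A.filter (fun y => y % 2 ≠ 0),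
        2501 / 10000 * (2 * (1 / |(y : ℝ)| - 1 / |3 * (y : ℝ) + 1|)) :=
        Finset.sum_le_sum fun y hy => log_le_key y (hA.big y (Finset.mem_filter.1 hy).1)
    _ = 2501 / 10000 * ∑ y ∈ A, 1 / |(y : ℝ)| := by rw [← Finset.mul_sum, sum_inv_eq hA]
    _ ≤ 2501 / 10000 * B := by gcongr

variable {ι : Type*}

/-- A family of different unknown cycles of one sign. -/
theorem family (F : Finset ι) (f : ι → ℤ)
    (hF : ∀ i ∈ F, f i ∈ periodicPts T ∧ f i ∉ Dyn.known)
    (hdisj : (F : Set ι).PairwiseDisjoint (fun i => orb (f i)))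
    (hsign : (∀ i ∈ F, 0 < f i) ∨ (∀ i ∈ F, f i < 0)) :
    ∃ A : Finset ℤ, Nice A ∧ (∀ y ∈ A, ∃ i ∈ F, y ∈ orb (f i)) ∧
      ∑ i ∈ F, |lam (f i)| =
        |(A.card : ℝ) * Real.log 2 - ((A.filter (fun y => y % 2 ≠ 0)).card : ℝ) * Real.log 3| := by
  classical
  have hper : ∀ i ∈ F, f i ∈ periodicPts T := fun i hi => (hF i hi).1
  set A := F.biUnion (fun i => orb (f i)) with hA
  have hT : A.image T = A := by
    rw [hA, Finset.biUnion_image]
    exact Finset.biUnion_congr rfl fun i hi => orb_image (hper i hi)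
  have hAsign : (∀ y ∈ A, 0 < y) ∨ (∀ y ∈ A, y < 0) := by
    rcases hsign with h | h
    · left
      intro y hy
      obtain ⟨i, hi, hy⟩ := Finset.mem_biUnion.1 hy
      obtain ⟨j, rfl⟩ := (mem_orb (hper i hi)).1 hy
      exact iterate_pos' (h i hi) j
    · right
      intro y hy
      obtain ⟨i, hi, hy⟩ := Finset.mem_biUnion.1 hy
      obtain ⟨j, rfl⟩ := (mem_orb (hper i hi)).1 hy
      exact iterate_neg' (h i hi) j
  have hAk : ∀ y ∈ A, y ∉ Dyn.known := by
    intro y hy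
    obtain ⟨i, hi, hy⟩ := Finset.mem_biUnion.1 hy
    exact orb_not_known (hper i hi) (hF i hi).2 y hy
  refine ⟨A, nice_of hT hAsign hAk, fun y hy => Finset.mem_biUnion.1 hy, ?_⟩
  have hcard : (A.card : ℝ) = ∑ i ∈ F, (minimalPeriod T (f i) : ℝ) := by
    rw [hA, Finset.card_biUnion hdisj]
    push_cast
    exact Finset.sum_congr rfl fun i _ => by rw [orb_card]
  have hcard2 : ((A.filter (fun y => y % 2 ≠ 0)).card : ℝ) =
      ∑ i ∈ F, ((par (minimalPeriod T (f i)) (f i)).card : ℝ) := by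
    rw [hA, Finset.filter_biUnion, Finset.card_biUnion]
    · push_cast
      exact Finset.sum_congr rfl fun i _ => by rw [orb_odd_card]
    · intro i hi i' hi' hne
      exact (hdisj hi hi' hne).mono (Finset.filter_subset _ _) (Finset.filter_subset _ _)
  rw [hcard, hcard2, Finset.sum_mul, Finset.sum_mul, ← Finset.sum_sub_distrib]
  rcases hsign with h | h
  · have h0 : ∀ i ∈ F, 0 ≤ lam (f i) := by
      intro i hi
      have hne : f i ≠ 0 := (h i hi).ne'
      rw [lam_eq hne]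
      refine Finset.sum_nonneg fun j _ => Real.log_nonneg ?_
      have h1 : (0 : ℝ) < (T^[j] (f i) : ℝ) := by exact_mod_cast iterate_pos' (h i hi) j
      have h2 : 0 < 1 / (3 * (T^[j] (f i) : ℝ)) := by positivity
      linarith
    have h1 : ∑ i ∈ F, ((minimalPeriod T (f i) : ℝ) * Real.log 2 -
        ((par (minimalPeriod T (f i)) (f i)).card : ℝ) * Real.log 3) = ∑ i ∈ F, lam (f i) := rfl
    rw [h1, abs_of_nonneg (Finset.sum_nonneg h0)]
    exact Finset.sum_congr rfl fun i hi => abs_of_nonneg (h0 i hi)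
  · have h0 : ∀ i ∈ F, lam (f i) ≤ 0 := by
      intro i hi
      have hne : f i ≠ 0 := (h i hi).ne
      rw [lam_eq hne]
      refine Finset.sum_nonpos fun j _ => ?_
      have h1 : (T^[j] (f i) : ℝ) ≤ -1 := by
        have := iterate_neg' (h i hi) j
        exact_mod_cast (by omega : T^[j] (f i) ≤ -1)
      have h2 : 1 / (3 * (T^[j] (f i) : ℝ)) ≤ 0 := by
        apply div_nonpos_of_nonneg_of_nonpos one_pos.le
        linarith
      have h3 : -1 / 3 ≤ 1 / (3 * (T^[j] (f i) : ℝ)) := by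
        rw [le_div_iff_of_neg (by linarith)]
        linarith
      exact Real.log_nonpos (by linarith) (by linarith)
    have h1 : ∑ i ∈ F, ((minimalPeriod T (f i) : ℝ) * Real.log 2 -
        ((par (minimalPeriod T (f i)) (f i)).card : ℝ) * Real.log 3) = ∑ i ∈ F, lam (f i) := rfl
    rw [h1, abs_of_nonpos (Finset.sum_nonpos h0), ← Finset.sum_neg_distrib]
    exact Finset.sum_congr rfl fun i hi => abs_of_nonpos (h0 i hi)

/-- unknown cycles -/
theorem family_24 (F : Finset ι) (f : ι → ℤ)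
    (hF : ∀ i ∈ F, f i ∈ periodicPts T ∧ f i ∉ Dyn.known)
    (hdisj : (F : Set ι).PairwiseDisjoint (fun i => orb (f i)))
    (hsign : (∀ i ∈ F, 0 < f i) ∨ (∀ i ∈ F, f i < 0)) :
    ∑ i ∈ F, |lam (f i)| ≤ 261 / 1000 := by
  obtain ⟨A, hA, -, h⟩ := family F f hF hdisj hsign
  rw [h]
  refine (abs_lam_set hA (sum_inv_24 hA)).trans ?_
  norm_num

/-- cycles that avoid `(-2^71, 2^71)` -/
theorem family_71 (F : Finset ι) (f : ι → ℤ)
    (hF : ∀ i ∈ F, f i ∈ periodicPts T ∧ f i ∉ Dyn.known)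
    (hdisj : (F : Set ι).PairwiseDisjoint (fun i => orb (f i)))
    (hsign : (∀ i ∈ F, 0 < f i) ∨ (∀ i ∈ F, f i < 0))
    (hbig : ∀ i ∈ F, ∀ y ∈ orb (f i), (2 : ℤ) ^ 71 ≤ |y|) :
    ∑ i ∈ F, |lam (f i)| ≤ 29 / 1000 := by
  obtain ⟨A, hA, hA2, h⟩ := family F f hF hdisj hsign
  rw [h]
  refine (abs_lam_set hA (sum_inv_71 hA ?_)).trans ?_
  · intro y hy
    obtain ⟨i, hi, hy⟩ := hA2 y hy
    exact hbig i hi y hy
  · norm_num

theorem lam_pos {x : ℤ} (hx : 0 < x) : 0 ≤ lam x := by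
  rw [lam_eq hx.ne']
  refine Finset.sum_nonneg fun j _ => Real.log_nonneg ?_
  have h1 : (0 : ℝ) < (T^[j] x : ℝ) := by exact_mod_cast iterate_pos' hx j
  have h2 : 0 < 1 / (3 * (T^[j] x : ℝ)) := by positivity
  linarith

theorem lam_neg {x : ℤ} (hx : x < 0) : lam x ≤ 0 := by
  rw [lam_eq hx.ne]
  refine Finset.sum_nonpos fun j _ => ?_
  have h1 : (T^[j] x : ℝ) ≤ -1 := by
    have := iterate_neg' hx j
    exact_mod_cast (by omega : T^[j] x ≤ -1)
  have h2 : 1 / (3 * (T^[j] x : ℝ)) ≤ 0 := by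
    apply div_nonpos_of_nonneg_of_nonpos one_pos.le
    linarith
  have h3 : -1 / 3 ≤ 1 / (3 * (T^[j] x : ℝ)) := by
    rw [le_div_iff_of_neg (by linarith)]
    linarith
  exact Real.log_nonpos (by linarith) (by linarith)

theorem log_three_lower : (1.0985 : ℝ) ≤ Real.log 3 := by
  have h1 : Real.log ((2 : ℝ) ^ 84) ≤ Real.log ((3 : ℝ) ^ 53) :=
    Real.log_le_log (by positivity) (by norm_num)
  rw [Real.log_pow, Real.log_pow] at h1
  have h2 := Real.log_two_gt_d9
  push_cast at h1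
  norm_num at h1 h2 ⊢
  linarith

/-- fractional part, positive defect -/
theorem fract_pos {p k : ℕ} {b : ℝ} (hb : b ≤ 1 / 2)
    (h0 : 0 ≤ (p : ℝ) * Real.log 2 - k * Real.log 3)
    (h1 : (p : ℝ) * Real.log 2 - k * Real.log 3 ≤ b) :
    Int.fract ((p : ℝ) * Real.logb 3 2) ≤ b / 1.0985 := by
  have h3 := log_three_lower
  have hl : (0 : ℝ) < Real.log 3 := by linarith
  have e : (p : ℝ) * Real.logb 3 2 = k + ((p : ℝ) * Real.log 2 - k * Real.log 3) / Real.log 3 := by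
    rw [Real.logb]
    field_simp
    ring
  have h4 : ((p : ℝ) * Real.log 2 - k * Real.log 3) / Real.log 3 ≤ b / 1.0985 := by
    have : 0 ≤ b := h0.trans h1
    calc _ ≤ b / Real.log 3 := by gcongr
      _ ≤ b / 1.0985 := by gcongr
  have h5 : 0 ≤ ((p : ℝ) * Real.log 2 - k * Real.log 3) / Real.log 3 := by positivity
  have h6 : ((p : ℝ) * Real.log 2 - k * Real.log 3) / Real.log 3 < 1 := by
    rw [div_lt_one hl]
    linarith
  rw [e, Int.fract_natCast_add, Int.fract_eq_self.2 ⟨h5, h6⟩]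
  exact h4

/-- fractional part, negative defect -/
theorem fract_neg {p k : ℕ} (hp : 0 < p) {b : ℝ} (hb : b ≤ 1 / 2)
    (h0 : (p : ℝ) * Real.log 2 - k * Real.log 3 ≤ 0)
    (h1 : -b ≤ (p : ℝ) * Real.log 2 - k * Real.log 3) :
    1 - b / 1.0985 ≤ Int.fract ((p : ℝ) * Real.logb 3 2) := by
  have h3 := log_three_lower
  have hl : (0 : ℝ) < Real.log 3 := by linarith
  have hne : (p : ℝ) * Real.log 2 - k * Real.log 3 ≠ 0 := by
    intro hcon
    have h4 : Real.log ((2 : ℝ) ^ p) = Real.log ((3 : ℝ) ^ k) := by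
      rw [Real.log_pow, Real.log_pow]
      linarith
    have h5 : (2 : ℝ) ^ p = (3 : ℝ) ^ k :=
      Real.log_injOn_pos (Set.mem_Ioi.2 (by positivity)) (Set.mem_Ioi.2 (by positivity)) h4
    have h6 : 2 ^ p = 3 ^ k := by exact_mod_cast h5
    have h7 : 2 ∣ 3 ^ k := by
      rw [← h6]
      exact dvd_pow_self 2 (by omega)
    have h8 := Nat.Prime.dvd_of_dvd_pow Nat.prime_two h7
    omega
  have hlt : (p : ℝ) * Real.log 2 - k * Real.log 3 < 0 := lt_of_le_of_ne h0 hne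
  have e : (p : ℝ) * Real.logb 3 2 =
      ((k : ℤ) - 1 : ℤ) + (1 + ((p : ℝ) * Real.log 2 - k * Real.log 3) / Real.log 3) := by
    rw [Real.logb]
    push_cast
    field_simp
    ring
  have h4 : - (b / 1.0985) ≤ ((p : ℝ) * Real.log 2 - k * Real.log 3) / Real.log 3 := by
    rw [le_div_iff₀ hl]
    have h5 : 0 ≤ b := by linarith
    have h6 : b ≤ b / 1.0985 * Real.log 3 := by
      rw [div_mul_eq_mul_div, le_div_iff₀ (by norm_num)]
      gcongr
    linarith
  have h5 : ((p : ℝ) * Real.log 2 - k * Real.log 3) / Real.log 3 < 0 := div_neg_of_neg_of_pos hlt hl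
  have h7 : b / 1.0985 ≤ 1 / 2 := by
    rw [div_le_iff₀ (by norm_num)]
    linarith
  rw [e, Int.fract_intCast_add, Int.fract_eq_self.2 ⟨by linarith, by linarith⟩]
  linarith

end Pool.Agent.Lib.MP_edb5be_nt.H26T
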